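import Pool.Agent.Lib_MP_f45bc3.Near

set_option autoImplicit false

namespace Pool.Agent.Results.MP_f45bc3_nt.NearPowers

open Pool.MP_f45bc3_nt

/-- the case `n ≥ 2 ^ M` -/
private theorem above (M k K : ℕ) (hk : 2 ^ (M + 2) * k < 2 ^ K) (hkM : k ≤ 2 ^ M)
    (hK : K ≤ 2 * M) : 2 * M - K ≤ zeros (2 ^ M + k) := by
  refine count_zero_ge (s := 2 ^ (M + 1) * k + k ^ 2) (q := 1) (K := 2 * M) (k := K) ?_ hK one_pos ?_
  · refine lt_of_le_of_lt ?_ hk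
    calc 2 ^ (M + 1) * k + k ^ 2 = 2 ^ (M + 1) * k + k * k := by rw [sq]
      _ ≤ 2 ^ (M + 1) * k + 2 ^ M * k := by gcongr
      _ ≤ 2 ^ (M + 2) * k := by
          rw [← add_mul]
          refine Nat.mul_le_mul_right _ ?_
          rw [pow_succ, pow_add]
          omega
  · rw [mul_comm 2 M, pow_mul]
    ring

private theorem result_aux (x : ℕ) (δ : ℝ) (hδ : 0 < δ) (hδ1 : δ ≤ 1) : ∃ N : ℕ, ∀ n M : ℕ, N ≤ n →
    |(n : ℝ) - 2 ^ M| ≤ (2 : ℝ) ^ ((1 - δ) * (M : ℝ)) → x < zeros n := by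
  set J := ⌈1 / δ⌉₊ with hJ
  have hJδ : 1 ≤ δ * J := by
    have h1 := Nat.le_ceil (1 / δ)
    rw [div_le_iff₀ hδ] at h1
    rw [mul_comm]
    exact h1
  have hJ1 : 1 ≤ J := Nat.one_le_iff_ne_zero.2 fun h => by
    rw [h] at hJδ
    norm_num at hJδ
  obtain ⟨M₀, hM₀⟩ := below x J hJ1
  set M₁ := ⌈(x + 4 : ℝ) / δ⌉₊ with hM₁
  refine ⟨2 ^ (M₀ + M₁ + 1) + 1, fun n M hn habs => ?_⟩
  have hpow : (2 : ℝ) ^ ((1 - δ) * (M : ℝ)) ≤ 2 ^ M := by
    rw [← Real.rpow_natCast]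
    refine Real.rpow_le_rpow_of_exponent_le one_le_two ?_
    have : (0 : ℝ) ≤ M := Nat.cast_nonneg _
    nlinarith
  have habs' := abs_le.1 habs
  have hnM : (n : ℝ) ≤ 2 ^ (M + 1) := by
    rw [pow_succ]
    linarith [habs'.2]
  have hnM' : n ≤ 2 ^ (M + 1) := by exact_mod_cast hnM
  have hMbig : M₀ + M₁ < M + 1 := by
    have h1 : 2 ^ (M₀ + M₁ + 1) < 2 ^ (M + 1) := by omega
    have h2 := (Nat.pow_lt_pow_iff_right (by norm_num)).1 h1
    omega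
  rcases Nat.lt_or_ge n (2 ^ M) with h | h
  · -- below
    obtain ⟨k, hk⟩ : ∃ k, n + k = 2 ^ M := ⟨2 ^ M - n, by omega⟩
    have hk0 : 0 < k := by omega
    have hnk : n = 2 ^ M - k := by omega
    have hkR : (k : ℝ) ≤ (2 : ℝ) ^ ((1 - δ) * (M : ℝ)) := by
      have h1 : ((n + k : ℕ) : ℝ) = ((2 ^ M : ℕ) : ℝ) := by rw [hk]
      push_cast at h1
      linarith [habs'.1]
    rw [hnk]
    refine hM₀ M k (by omega) hk0 ?_
    have h1 : (k : ℝ) ^ J ≤ (2 : ℝ) ^ ((J - 1) * M) := by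
      calc (k : ℝ) ^ J ≤ ((2 : ℝ) ^ ((1 - δ) * (M : ℝ))) ^ J :=
            pow_le_pow_left₀ (Nat.cast_nonneg _) hkR J
        _ = (2 : ℝ) ^ ((1 - δ) * (M : ℝ) * J) := by
            rw [← Real.rpow_natCast, ← Real.rpow_mul (by norm_num)]
        _ ≤ (2 : ℝ) ^ (((J - 1) * M : ℕ) : ℝ) := by
            refine Real.rpow_le_rpow_of_exponent_le one_le_two ?_
            push_cast [Nat.cast_sub hJ1]
            have : (0 : ℝ) ≤ M := Nat.cast_nonneg _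
            nlinarith
        _ = (2 : ℝ) ^ ((J - 1) * M) := Real.rpow_natCast _ _
    exact_mod_cast h1
  · -- above
    obtain ⟨k, rfl⟩ := Nat.exists_eq_add_of_le h
    have hkR : (k : ℝ) ≤ (2 : ℝ) ^ ((1 - δ) * (M : ℝ)) := by
      have h1 := habs'.2
      push_cast at h1
      linarith
    set K := ⌊(2 - δ) * (M : ℝ)⌋₊ + 3 with hK
    have hδM : (x : ℝ) + 4 ≤ δ * M := by
      have h1 := Nat.le_ceil ((x + 4 : ℝ) / δ)
      rw [div_le_iff₀ hδ] at h1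
      have h2 : (M₁ : ℝ) ≤ M := by exact_mod_cast (by omega : M₁ ≤ M)
      have h3 : (⌈(x + 4 : ℝ) / δ⌉₊ : ℝ) * δ ≤ M * δ := mul_le_mul_of_nonneg_right h2 hδ.le
      linarith
    have hM0 : (0 : ℝ) ≤ M := Nat.cast_nonneg _
    have hkM : k ≤ 2 ^ M := by
      have h1 : (k : ℝ) ≤ 2 ^ M := hkR.trans hpow
      exact_mod_cast h1
    have hpos : 0 ≤ (2 - δ) * (M : ℝ) := mul_nonneg (by linarith) hM0
    have h1 : (⌊(2 - δ) * (M : ℝ)⌋₊ : ℝ) ≤ (2 - δ) * M := Nat.floor_le hpos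
    have h2 : (2 - δ) * (M : ℝ) < ⌊(2 - δ) * (M : ℝ)⌋₊ + 1 := Nat.lt_floor_add_one _
    have h3 : ((K + x + 1 : ℕ) : ℝ) ≤ ((2 * M : ℕ) : ℝ) := by
      rw [hK]
      push_cast
      linarith
    have h4 : K + x + 1 ≤ 2 * M := by exact_mod_cast h3
    have h5 : ((2 ^ (M + 2) * k : ℕ) : ℝ) < ((2 ^ K : ℕ) : ℝ) := by
      push_cast
      calc (2 : ℝ) ^ (M + 2) * k ≤ 2 ^ (M + 2) * (2 : ℝ) ^ ((1 - δ) * (M : ℝ)) := by gcongr
        _ = (2 : ℝ) ^ (((M + 2 : ℕ) : ℝ) + (1 - δ) * (M : ℝ)) := by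
            rw [Real.rpow_add (by norm_num), Real.rpow_natCast]
        _ < (2 : ℝ) ^ (K : ℝ) := by
            refine Real.rpow_lt_rpow_of_exponent_lt one_lt_two ?_
            rw [hK]
            push_cast
            linarith
        _ = (2 : ℝ) ^ K := Real.rpow_natCast _ _
    have h6 := above M k K (by exact_mod_cast h5) hkM (by omega)
    omega

/-- For every `x` and `δ > 0` there is `N` such that for all `n ≥ N` which satisfy `|n - 2 ^ M| ≤ 2 ^ ((1 - δ) M)` for some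
`M ≥ 0`, the binary expansion of `n ^ 2` has more than `x` zeros. -/
theorem result (x : ℕ) (δ : ℝ) (hδ : 0 < δ) : ∃ N : ℕ, ∀ n M : ℕ, N ≤ n →
    |(n : ℝ) - 2 ^ M| ≤ (2 : ℝ) ^ ((1 - δ) * (M : ℝ)) → x < zeros n := by
  obtain ⟨N, hN⟩ := result_aux x (min δ 1) (lt_min hδ one_pos) (min_le_right _ _)
  refine ⟨N, fun n M hn h => hN n M hn (h.trans ?_)⟩
  refine Real.rpow_le_rpow_of_exponent_le one_le_two ?_
  have h1 : (0 : ℝ) ≤ M := Nat.cast_nonneg _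
  have h2 := min_le_left δ 1
  exact mul_le_mul_of_nonneg_right (by linarith) h1

end Pool.Agent.Results.MP_f45bc3_nt.NearPowers
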