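import Pool.Agent.Lib_MP_f45bc3.Sparse

set_option autoImplicit false

namespace Pool.Agent.Results.MP_f45bc3_nt.SignedWeight

open Pool.MP_f45bc3_nt

/-- If `n ≥ 1` is a sum of `w` terms, each `0` or `± 2 ^ e`, then `log₂ n ≤ 2 ^ w (a(n) + 2 w + 3)`, where `a(n)` is the number
of zeros in the binary expansion of `n ^ 2`. -/
theorem result (w n : ℕ) (hn : 0 < n) (h : Sp w (n : ℤ)) :
    n ≤ 2 ^ (2 ^ w * (zeros n + 2 * w + 3)) :=
  sparse_bound w n hn h

end Pool.Agent.Results.MP_f45bc3_nt.SignedWeight
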